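import Pool.Agent.Y910.F.K5
import Pool.Agent.Y396.FC.SG
import Pool.Agent.Y525.FC.INT
import Pool.Agent.Y907.FC.FLIP
import Pool.Agent.Y396.FC.IRR
import Pool.Agent.Y876.FC.GEN
import Pool.Agent.Y79.FT.PL
import Pool.Agent.Y774.FT.EV

/-!
# Few large points in a class of the 2-descent with a small representative, all quadratic twists

Let `g` be an integral polynomial of degree `d ≥ 3` without multiple roots, with coefficients of
absolute value at most `H`, and let `D ∈ ℚ[X]` be such that the numbers `D θ`, `θ` a root of `g`, are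
algebraic integers different from zero and of absolute value at most `H`. Then the number of the
integers `x` with `(2 H) ^ M < |x|` for which `b D (x - X)` is a square modulo `g` for some integer
`b ≠ 0` is bounded in terms of `d`.

The proof combines parts of the library project `Pool.Agent.Y910.F` in the same way as
`Pool.Agent.Y910.F.frameE` and `Pool.Agent.Y910.F.frame`.
-/

open Polynomial IntermediateField

set_option autoImplicit false

namespace Pool.Agent.N394.FPC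

open Pool.Agent.Y910.F
open Pool.Agent.H322R2 Pool.Agent.Y910.G Pool.Agent.Y910.R Pool.Agent.Y910.E Pool.Agent.Y910.A

theorem frameT (hSG : StSG) (hINT : StINT) (hFLIP : StFLIP) (hIRR : StIRR) (hPL3 : StPL3)
    (hGEN : StGEN) (hEV : StEV) (d : ℕ) (hd : 3 ≤ d) : ∃ M N : ℕ,
    ∀ (H : ℕ) (g : ℤ[X]) (D : ℚ[X]) (s : Finset ℤ), 1 ≤ H → g.natDegree = d →
    (g.map (Int.castRingHom ℚ)).Separable → (∀ i, |g.coeff i| ≤ H) →
    (∀ θ : ℂ, aeval θ g = 0 → IsIntegral ℤ (aeval θ D) ∧ aeval θ D ≠ 0 ∧ ‖aeval θ D‖ ≤ H) →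
    (∀ x ∈ s, (2 * H : ℤ) ^ M < |x| ∧ ∃ b : ℤ, b ≠ 0 ∧
      ∃ B : ℚ[X], g.map (Int.castRingHom ℚ) ∣ B ^ 2 - C (b : ℚ) * D * (C (x : ℚ) - X)) →
    s.card ≤ N := by
  classical
  obtain ⟨M1, N1, hMN⟩ := monic_few (2 ^ (d - 1)) Nat.one_le_two_pow
  obtain ⟨i0, hi0⟩ : ∃ i0 : Fin d, i0.1 = 0 := ⟨⟨0, by omega⟩, rfl⟩
  obtain ⟨i1, hi1⟩ : ∃ i1 : Fin d, i1.1 = 1 := ⟨⟨1, by omega⟩, rfl⟩
  obtain ⟨m2, hm2, hcd⟩ := cdata hSG hINT hGEN d hd i0 i1 ⟨hi0, hi1⟩
  refine ⟨m2 * M1, N1, ?_⟩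
  intro H g D s hH hdeg hsep hcoef hD hs
  obtain ⟨m, θ, u, F, hθi, hθ0, hθs, hu0, hu2, hgen, hFm, hFd, hFs, hwt, hpn⟩ :=
    hcd H g D hH hdeg hsep hcoef hD
  obtain ⟨G, hGm, hGd, hFG, hdegG⟩ := hEV d (by omega) F (fun i => C (u i) * (X - C (θ i)))
    (fun i => (natDegree_C_mul_le _ _).trans (natDegree_X_sub_C _).le) hFm hFd hFs
  obtain ⟨hprime, L, _, _, α, β, hev, htr, hgenL, hpl⟩ :=
    singleE hSG hFLIP hIRR hPL3 θ u hθi hu0 F G hFm hFd hFs hFG
  replace hpn := (pn_expand F G hFG).trans hpn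
  obtain ⟨T, hT⟩ : ∃ T : ℕ, T = (2 * H) ^ m2 := ⟨_, rfl⟩
  rw [← hT] at hpn
  have hT2 : 2 ≤ T := by
    rw [hT]
    calc 2 ≤ 2 * H := by omega
      _ = (2 * H) ^ 1 := (pow_one _).symm
      _ ≤ _ := Nat.pow_le_pow_right (by omega) hm2
  rcases hMN T hT2 G hGm hGd hprime (fun j => (hdegG j).trans (Nat.sub_le _ _)) hpn L α β hev htr
    hgenL with h | ⟨A, hA, q, hq1, hq2, hq3, hq4, η, hη⟩
  · have hpt : ∀ x ∈ s, ∃ z : ℤ, ev x z G = 0 := by
      intro x hx
      obtain ⟨b, hb, B, hB⟩ := (hs x hx).2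
      obtain ⟨t, ht, z, hzt⟩ := int_pointE d m g hdeg hsep D (fun r hr => (hD r hr).1) b x hb B hB θ
        hθ0 hθs
      refine ⟨z, ?_⟩
      have h3 := root_sum hSG F _ hFs (evalRingHom (x : ℂ)) t (by
          intro i
          simp only [coe_evalRingHom, eval_mul, eval_C, eval_sub, eval_X]
          rw [ht i, hu2])
      rw [hFG, expand_eq_comp_X_pow, eval₂_comp, eval₂_X_pow, ← hzt, ← evf_eq] at h3
      have h4 : ((ev x z G : ℤ) : ℂ) = 0 := by
        have h5 := map_ev (Int.castRingHom ℂ) x z G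
        rw [ev_apply, ev_apply] at h5
        rw [← h3, ev_apply]
        exact h5
      exact_mod_cast h4
    choose! z hz using hpt
    have h1 := h (s.image fun x => (x, z x)) (by
      intro P hP
      obtain ⟨x, hx, rfl⟩ := Finset.mem_image.1 hP
      refine ⟨hz x hx, ?_⟩
      have h2 := (hs x hx).1
      have h3 : (T : ℤ) ^ M1 = (2 * (H : ℤ)) ^ (m2 * M1) := by
        rw [hT]
        push_cast
        rw [← pow_mul]
      rw [h3]
      exact h2)
    rw [Finset.card_image_of_injective _ (fun a b hab => (Prod.ext_iff.1 hab).1)] at h1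
    exact h1
  · exfalso
    obtain ⟨ρ, hρη, cc, hcc, hroot⟩ := hpl A hA q hq1 hq2 hq3 η hη
    have hηint : IsIntegral ℚ η := ⟨q, hq1, hη⟩
    have hfd : FiniteDimensional ℚ ℚ⟮η⟯ := IntermediateField.adjoin.finiteDimensional hηint
    have hρint : IsIntegral ℚ ρ := by
      have h3 : IsIntegral ℚ (⟨ρ, hρη⟩ : ℚ⟮η⟯) := IsIntegral.of_finite ℚ _
      exact h3.map (ℚ⟮η⟯).val
    have hflip : ∀ i1 : Fin d, aeval ((∑ i, cc i - 2 * cc i1) ^ 2) (minpoly ℚ ρ) = 0 := by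
      intro i1
      have h3 := hroot (fun i => if i = i1 then -1 else 1) (by
        intro i
        by_cases h : i = i1
        · right; simp [h]
        · left; simp [h])
      have h4 : ∑ i, (((if i = i1 then -1 else 1 : ℤ)) : ℂ) * cc i = ∑ i, cc i - 2 * cc i1 := by
        have h5 : ∀ i, (((if i = i1 then -1 else 1 : ℤ)) : ℂ) * cc i =
            cc i - (if i = i1 then 2 * cc i else 0) := by
          intro i
          split_ifs with h
          · push_cast; ring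
          · push_cast; ring
        rw [Finset.sum_congr rfl fun i _ => h5 i, Finset.sum_sub_distrib, Finset.sum_ite_eq']
        simp
      rw [h4] at h3
      exact h3
    have hfull : aeval ((∑ i, cc i) ^ 2) (minpoly ℚ ρ) = 0 := by
      have h3 := hroot (fun _ => 1) (fun _ => Or.inl rfl)
      simpa using h3
    obtain ⟨hg1, hg2, hg3⟩ := hgen cc hcc
    have h3 : 3 ≤ Module.finrank ℚ ℚ⟮ρ⟯ :=
      three_roots ρ hρint _ _ _ hg1 hg2 hg3 hfull (hflip i0) (hflip i1)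
    have hle : ℚ⟮ρ⟯ ≤ ℚ⟮η⟯ := by
      rw [IntermediateField.adjoin_simple_le_iff]
      exact hρη
    have h4 : Module.finrank ℚ ℚ⟮ρ⟯ ≤ Module.finrank ℚ ℚ⟮η⟯ :=
      IntermediateField.finrank_le_of_le_right hle
    have h5 : Module.finrank ℚ ℚ⟮η⟯ = q.natDegree := by
      rw [IntermediateField.adjoin.finrank hηint, ← minpoly.eq_of_irreducible_of_monic hq2 hη hq1]
    omega

theorem frameT_done (d : ℕ) (hd : 3 ≤ d) : ∃ M N : ℕ,
    ∀ (H : ℕ) (g : ℤ[X]) (D : ℚ[X]) (s : Finset ℤ), 1 ≤ H → g.natDegree = d →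
    (g.map (Int.castRingHom ℚ)).Separable → (∀ i, |g.coeff i| ≤ H) →
    (∀ θ : ℂ, aeval θ g = 0 → IsIntegral ℤ (aeval θ D) ∧ aeval θ D ≠ 0 ∧ ‖aeval θ D‖ ≤ H) →
    (∀ x ∈ s, (2 * H : ℤ) ^ M < |x| ∧ ∃ b : ℤ, b ≠ 0 ∧
      ∃ B : ℚ[X], g.map (Int.castRingHom ℚ) ∣ B ^ 2 - C (b : ℚ) * D * (C (x : ℚ) - X)) →
    s.card ≤ N :=
  frameT Pool.Agent.Y396.FC.SG.done (Pool.Agent.Y525.FC.done Pool.Agent.Y396.FC.SG.done)
    Pool.Agent.Y907.FC.FLIP.done Pool.Agent.Y396.FC.IRR.done Pool.Agent.Y79.FT.done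
    Pool.Agent.Y876.FC.done Pool.Agent.Y774.FT.done d hd

end Pool.Agent.N394.FPC
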