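import Mathlib

/-!
# A gap principle for integral points in a class of the 2-descent, all quadratic twists

Let `g` be an integral polynomial without multiple roots of degree at least three, with coefficients
of absolute value at most `H`, and let `x ≠ x'` be integers and `R ∈ ℚ[X]` with
`R ^ 2 = c (x - X) (x' - X)` modulo `g`, where `c ≠ 0` is an integer. Suppose that the values of `R`
at the roots of `g` are near to the same number `σ`. If `|x| ≤ |x'| < |x| ^ 2`, then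
`|x| ≤ (2 H) ^ 14`.
-/

open Polynomial

set_option autoImplicit false

namespace Pool.Agent.N394.FPC

/-- an algebraic integer all whose conjugates are small vanishes -/
lemma eq_zero_of_conj_lt_one {K : Type*} [Field K] [CharZero K] [FiniteDimensional ℚ K] (w : K)
    (hw : IsIntegral ℤ w) (h : ∀ φ : K →ₐ[ℚ] ℂ, ‖φ w‖ < 1) : w = 0 := by
  classical
  have h1 : IsIntegral ℤ (Algebra.norm ℚ w) := Algebra.isIntegral_norm ℚ hw
  obtain ⟨n, hn⟩ := IsIntegrallyClosed.isIntegral_iff.1 h1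
  have h2 : ((Algebra.norm ℚ w : ℚ) : ℂ) = ∏ φ : K →ₐ[ℚ] ℂ, φ w := by
    have := Algebra.norm_eq_prod_embeddings ℚ ℂ w
    simpa using this
  have hne : Nonempty (K →ₐ[ℚ] ℂ) := by
    have : Fintype.card (K →ₐ[ℚ] ℂ) = Module.finrank ℚ K := AlgHom.card ℚ K ℂ
    have h3 : 0 < Module.finrank ℚ K := Module.finrank_pos
    exact Fintype.card_pos_iff.1 (by omega)
  obtain ⟨φ0⟩ := hne
  have h3 : ‖∏ φ : K →ₐ[ℚ] ℂ, φ w‖ < 1 := by
    rw [norm_prod, ← Finset.mul_prod_erase Finset.univ _ (Finset.mem_univ φ0)]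
    calc ‖φ0 w‖ * ∏ φ ∈ Finset.univ.erase φ0, ‖φ w‖ ≤ ‖φ0 w‖ * 1 := by
          apply mul_le_mul_of_nonneg_left _ (norm_nonneg _)
          exact Finset.prod_le_one (fun _ _ => norm_nonneg _) (fun φ _ => (h φ).le)
      _ < 1 := by rw [mul_one]; exact h φ0
  have h4 : (Algebra.norm ℚ w : ℚ) = n := by rw [← hn]; simp
  rw [← h2, h4] at h3
  have h5 : ‖((n : ℤ) : ℂ)‖ < 1 := by simpa using h3
  rw [Complex.norm_intCast] at h5
  have h6 : n = 0 := by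
    have : |n| < 1 := by exact_mod_cast h5
    exact Int.abs_lt_one_iff.1 this
  rw [h6] at h4
  have h7 : Algebra.norm ℚ w = 0 := by simpa using h4
  exact Algebra.norm_eq_zero_iff.1 h7

/-- the expression which vanishes for affine functions -/
noncomputable def W (R : ℚ[X]) (θ₁ θ₂ θ₃ : ℂ) : ℂ :=
  aeval θ₁ R * (θ₂ - θ₃) + aeval θ₂ R * (θ₃ - θ₁) + aeval θ₃ R * (θ₁ - θ₂)

lemma W_integral (g : ℤ[X]) (R : ℚ[X]) (c x x' : ℤ) (hc : c ≠ 0)
    (hR : ∀ θ : ℂ, aeval θ g = 0 → aeval θ R ^ 2 = c * (x - θ) * (x' - θ)) (θ₁ θ₂ θ₃ : ℂ)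
    (h₁ : aeval θ₁ g = 0) (h₂ : aeval θ₂ g = 0) (h₃ : aeval θ₃ g = 0) :
    IsIntegral ℤ ((g.leadingCoeff : ℂ) ^ 4 / c * W R θ₁ θ₂ θ₃ ^ 2) := by
  have hcC : (c : ℂ) ≠ 0 := by exact_mod_cast hc
  obtain ⟨s, hs⟩ : ∃ s : ℂ, s ^ 2 = c := IsAlgClosed.exists_pow_nat_eq _ (by norm_num)
  have hs0 : s ≠ 0 := by
    rintro rfl
    rw [zero_pow two_ne_zero] at hs
    exact hcC hs.symm
  have hz : ∀ n : ℤ, IsIntegral ℤ (n : ℂ) := fun n => isIntegral_algebraMap (R := ℤ) (x := n)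
  have h5 : ∀ θ : ℂ, aeval θ g = 0 → IsIntegral ℤ ((g.leadingCoeff : ℂ) * θ) := by
    intro θ hθ
    have := isIntegral_leadingCoeff_smul g θ hθ
    rwa [zsmul_eq_mul] at this
  have h6 : ∀ θ : ℂ, aeval θ g = 0 → IsIntegral ℤ ((g.leadingCoeff : ℂ) * aeval θ R / s) := by
    intro θ hθ
    apply IsIntegral.of_pow (n := 2) (by norm_num)
    rw [div_pow, mul_pow, hR θ hθ, hs]
    have h7 : (g.leadingCoeff : ℂ) ^ 2 * (c * (x - θ) * (x' - θ)) / c =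
        ((g.leadingCoeff : ℤ) * (x : ℤ) - (g.leadingCoeff : ℂ) * θ) *
        ((g.leadingCoeff : ℤ) * (x' : ℤ) - (g.leadingCoeff : ℂ) * θ) := by
      field_simp
    rw [h7]
    exact (((hz _).mul (hz _)).sub (h5 θ hθ)).mul (((hz _).mul (hz _)).sub (h5 θ hθ))
  have h8 : (g.leadingCoeff : ℂ) ^ 4 / c * W R θ₁ θ₂ θ₃ ^ 2 =
      ((g.leadingCoeff : ℂ) * aeval θ₁ R / s *
        ((g.leadingCoeff : ℂ) * θ₂ - (g.leadingCoeff : ℂ) * θ₃) +
      (g.leadingCoeff : ℂ) * aeval θ₂ R / s *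
        ((g.leadingCoeff : ℂ) * θ₃ - (g.leadingCoeff : ℂ) * θ₁) +
      (g.leadingCoeff : ℂ) * aeval θ₃ R / s *
        ((g.leadingCoeff : ℂ) * θ₁ - (g.leadingCoeff : ℂ) * θ₂)) ^ 2 := by
    rw [W, ← hs]
    field_simp
  rw [h8]
  exact (((h6 _ h₁).mul ((h5 _ h₂).sub (h5 _ h₃))).add
    (((h6 _ h₂).mul ((h5 _ h₃).sub (h5 _ h₁))))|>.add
    (((h6 _ h₃).mul ((h5 _ h₁).sub (h5 _ h₂))))).pow 2

lemma W_zero (g : ℤ[X]) (hg : g ≠ 0) (R : ℚ[X]) (c x x' : ℤ) (hc : c ≠ 0)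
    (hR : ∀ θ : ℂ, aeval θ g = 0 → aeval θ R ^ 2 = c * (x - θ) * (x' - θ))
    (hsmall : ∀ θ₁ θ₂ θ₃ : ℂ, aeval θ₁ g = 0 → aeval θ₂ g = 0 → aeval θ₃ g = 0 →
      ‖(g.leadingCoeff : ℂ) ^ 4 / c * W R θ₁ θ₂ θ₃ ^ 2‖ < 1) (θ₁ θ₂ θ₃ : ℂ)
    (h₁ : aeval θ₁ g = 0) (h₂ : aeval θ₂ g = 0) (h₃ : aeval θ₃ g = 0) : W R θ₁ θ₂ θ₃ = 0 := by
  classical
  have hcC : (c : ℂ) ≠ 0 := by exact_mod_cast hc
  have hgC : (g.leadingCoeff : ℂ) ≠ 0 := by exact_mod_cast leadingCoeff_ne_zero.2 hg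
  have halg : ∀ θ : ℂ, aeval θ g = 0 → IsIntegral ℚ θ := by
    intro θ hθ
    have h2 : IsAlgebraic ℚ θ := by
      refine ⟨g.map (Int.castRingHom ℚ), (Polynomial.map_ne_zero_iff
        (RingHom.injective_int _)).2 hg, ?_⟩
      rw [aeval_def, eval₂_map, ← hθ, aeval_def]
      congr 1
    exact h2.isIntegral
  let K : IntermediateField ℚ ℂ := IntermediateField.adjoin ℚ {θ₁, θ₂, θ₃}
  have hfd : FiniteDimensional ℚ K := by
    apply IntermediateField.finiteDimensional_adjoin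
    intro θ hθ
    simp only [Set.mem_insert_iff, Set.mem_singleton_iff] at hθ
    rcases hθ with rfl | rfl | rfl
    · exact halg _ h₁
    · exact halg _ h₂
    · exact halg _ h₃
  have hm₁ : θ₁ ∈ K := IntermediateField.subset_adjoin _ _ (by simp)
  have hm₂ : θ₂ ∈ K := IntermediateField.subset_adjoin _ _ (by simp)
  have hm₃ : θ₃ ∈ K := IntermediateField.subset_adjoin _ _ (by simp)
  obtain ⟨t₁, ht₁⟩ : ∃ t : K, (t : ℂ) = θ₁ := ⟨⟨θ₁, hm₁⟩, rfl⟩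
  obtain ⟨t₂, ht₂⟩ : ∃ t : K, (t : ℂ) = θ₂ := ⟨⟨θ₂, hm₂⟩, rfl⟩
  obtain ⟨t₃, ht₃⟩ : ∃ t : K, (t : ℂ) = θ₃ := ⟨⟨θ₃, hm₃⟩, rfl⟩
  obtain ⟨w, hw⟩ : ∃ w : K, w = (g.leadingCoeff : K) ^ 4 / c *
    (aeval t₁ R * (t₂ - t₃) + aeval t₂ R * (t₃ - t₁) + aeval t₃ R * (t₁ - t₂)) ^ 2 := ⟨_, rfl⟩
  have hφ : ∀ φ : K →ₐ[ℚ] ℂ, φ w = (g.leadingCoeff : ℂ) ^ 4 / c * W R (φ t₁) (φ t₂) (φ t₃) ^ 2 := by
    intro φ
    rw [hw, W]
    simp only [map_mul, map_div₀, map_pow, map_intCast, map_add, map_sub, aeval_algHom_apply]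
  have hroot : ∀ (φ : K →ₐ[ℚ] ℂ) (t : K), aeval (t : ℂ) g = 0 → aeval (φ t) g = 0 := by
    intro φ t ht
    have h1 : aeval (t : ℂ) g = ((aeval t g : K) : ℂ) := by
      have := aeval_algebraMap_apply ℂ t g
      exact this
    rw [h1] at ht
    have h2 : aeval t g = 0 := by exact_mod_cast ht
    have h3 : aeval (φ t) g = φ (aeval t g) := by
      have := aeval_algHom_apply (φ.restrictScalars ℤ) t g
      exact this
    rw [h3, h2, map_zero]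
  have hval : K.val w = (g.leadingCoeff : ℂ) ^ 4 / c * W R θ₁ θ₂ θ₃ ^ 2 := by
    refine (hφ K.val).trans ?_
    rw [← ht₁, ← ht₂, ← ht₃]
    rfl
  have hint : IsIntegral ℤ w := by
    have h1 : IsIntegral ℤ (algebraMap K ℂ w) := by
      have h2 : algebraMap K ℂ w = K.val w := rfl
      rw [h2, hval]
      exact W_integral g R c x x' hc hR _ _ _ h₁ h₂ h₃
    exact (isIntegral_algebraMap_iff (algebraMap K ℂ).injective).1 h1
  have h0 : w = 0 := by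
    apply eq_zero_of_conj_lt_one w hint
    intro φ
    rw [hφ]
    exact hsmall _ _ _ (hroot φ t₁ (by rw [ht₁]; exact h₁)) (hroot φ t₂ (by rw [ht₂]; exact h₂))
      (hroot φ t₃ (by rw [ht₃]; exact h₃))
  rw [h0, map_zero] at hval
  have h2 : (g.leadingCoeff : ℂ) ^ 4 / c ≠ 0 := div_ne_zero (pow_ne_zero _ hgC) hcC
  rcases mul_eq_zero.1 hval.symm with h3 | h3
  · exact absurd h3 h2
  · exact pow_eq_zero_iff (two_ne_zero) |>.1 h3

/-- three values of the square root of a quadratic polynomial on a line -/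
lemma eq_of_W_zero (c x x' : ℂ) (hc : c ≠ 0) (θ₁ θ₂ θ₃ r₁ r₂ r₃ : ℂ) (h12 : θ₁ ≠ θ₂) (h13 : θ₁ ≠ θ₃)
    (h23 : θ₂ ≠ θ₃) (e₁ : r₁ ^ 2 = c * (x - θ₁) * (x' - θ₁)) (e₂ : r₂ ^ 2 = c * (x - θ₂) * (x' - θ₂))
    (e₃ : r₃ ^ 2 = c * (x - θ₃) * (x' - θ₃))
    (hW : r₁ * (θ₂ - θ₃) + r₂ * (θ₃ - θ₁) + r₃ * (θ₁ - θ₂) = 0) : x = x' := by
  have hd12 : θ₁ - θ₂ ≠ 0 := sub_ne_zero.2 h12
  obtain ⟨q, hq⟩ : ∃ q, q = (r₁ - r₂) / (θ₁ - θ₂) := ⟨_, rfl⟩
  obtain ⟨p, hp⟩ : ∃ p, p = r₁ - q * θ₁ := ⟨_, rfl⟩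
  have hq' : q * (θ₁ - θ₂) = r₁ - r₂ := by rw [hq]; field_simp
  have f₁ : r₁ = p + q * θ₁ := by rw [hp]; ring
  have f₂ : r₂ = p + q * θ₂ := by rw [hp]; linear_combination hq'
  have f₃ : r₃ = p + q * θ₃ := by
    have : (r₃ - (p + q * θ₃)) * (θ₁ - θ₂) = 0 := by
      rw [f₁, f₂] at hW
      linear_combination hW
    rcases mul_eq_zero.1 this with h | h
    · exact sub_eq_zero.1 h
    · exact absurd h hd12
  rw [f₁] at e₁
  rw [f₂] at e₂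
  rw [f₃] at e₃
  have a1 : ((c - q ^ 2) * (θ₁ + θ₂) - (c * (x + x') + 2 * p * q)) * (θ₁ - θ₂) = 0 := by
    linear_combination e₂ - e₁
  have a2 : ((c - q ^ 2) * (θ₁ + θ₃) - (c * (x + x') + 2 * p * q)) * (θ₁ - θ₃) = 0 := by
    linear_combination e₃ - e₁
  have b1 := (mul_eq_zero.1 a1).resolve_right hd12
  have b2 := (mul_eq_zero.1 a2).resolve_right (sub_ne_zero.2 h13)
  have b3 : (c - q ^ 2) * (θ₂ - θ₃) = 0 := by linear_combination b1 - b2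
  have b4 := (mul_eq_zero.1 b3).resolve_right (sub_ne_zero.2 h23)
  have hq2 : c = q ^ 2 := sub_eq_zero.1 b4
  rw [b4, zero_mul, zero_sub, neg_eq_zero] at b1
  have b5 : c * x * x' = p ^ 2 := by
    linear_combination e₁ * (-1) - b4 * θ₁ ^ 2 + b1 * θ₁
  have b6 : c ^ 2 * (x - x') ^ 2 = 0 := by
    have h1 : (c * (x + x')) ^ 2 = 4 * p ^ 2 * q ^ 2 := by
      have : c * (x + x') = - (2 * p * q) := by linear_combination b1
      rw [this]; ring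
    rw [← b5, ← hq2] at h1
    linear_combination h1
  have b7 := (mul_eq_zero.1 b6).resolve_left (pow_ne_zero _ hc)
  exact sub_eq_zero.1 (pow_eq_zero_iff (two_ne_zero) |>.1 b7)

/-- the square root near one -/
lemma sqrt_near (u v t : ℂ) (hu : ‖u‖ ≤ 1 / 4) (hv : ‖v‖ ≤ 1 / 4) (ht : t ^ 2 = (1 - u) * (1 - v))
    (h1 : ‖t - 1‖ < 1) : ‖t - (1 - (u + v) / 2)‖ ≤ ‖u - v‖ ^ 2 / 2 := by
  have hre : 0 < t.re := by
    have h2 := Complex.abs_re_le_norm (t - 1)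
    have h3 : |t.re - 1| < 1 := by simpa using h2.trans_lt h1
    have := (abs_lt.1 h3).1
    linarith
  have hure := (Complex.abs_re_le_norm u).trans hu
  have hvre := (Complex.abs_re_le_norm v).trans hv
  have hsum : (1 / 2 : ℝ) ≤ ‖t + (1 - (u + v) / 2)‖ := by
    refine le_trans ?_ (Complex.re_le_norm _)
    have h4 : (t + (1 - (u + v) / 2)).re = t.re + (1 - (u.re + v.re) / 2) := by
      simp
    rw [h4]
    have := (abs_le.1 hure).2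
    have := (abs_le.1 hvre).2
    linarith
  have hprod : (t - (1 - (u + v) / 2)) * (t + (1 - (u + v) / 2)) = - (u - v) ^ 2 / 4 := by
    linear_combination ht
  have hn : ‖t - (1 - (u + v) / 2)‖ * ‖t + (1 - (u + v) / 2)‖ = ‖u - v‖ ^ 2 / 4 := by
    rw [← norm_mul, hprod, norm_div, norm_neg, norm_pow]
    simp
  nlinarith [norm_nonneg (t - (1 - (u + v) / 2)), norm_nonneg (t + (1 - (u + v) / 2))]

/-- square roots of numbers near one are near `1` or `-1` -/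
lemma sqrt_sign (u v t : ℂ) (hu : ‖u‖ ≤ 1 / 16) (hv : ‖v‖ ≤ 1 / 16)
    (ht : t ^ 2 = (1 - u) * (1 - v)) :
    (0 < t.re → ‖t - 1‖ ≤ 1 / 7) ∧ (¬ 0 < t.re → ‖t + 1‖ ≤ 1 / 7) := by
  have hprod : (t - 1) * (t + 1) = - u - v + u * v := by linear_combination ht
  have hn : ‖t - 1‖ * ‖t + 1‖ ≤ 1 / 7 := by
    rw [← norm_mul, hprod]
    calc ‖- u - v + u * v‖ ≤ ‖-u - v‖ + ‖u * v‖ := norm_add_le _ _
      _ ≤ (‖-u‖ + ‖v‖) + ‖u‖ * ‖v‖ := by
          rw [norm_mul]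
          gcongr
          exact norm_sub_le _ _
      _ ≤ (1 / 16 + 1 / 16) + 1 / 16 * (1 / 16) := by
          rw [norm_neg]
          gcongr
      _ ≤ 1 / 7 := by norm_num
  constructor
  · intro h
    have h1 : 1 ≤ ‖t + 1‖ := by
      refine le_trans ?_ (Complex.re_le_norm _)
      simp
      exact h.le
    nlinarith [norm_nonneg (t - 1), norm_nonneg (t + 1)]
  · intro h
    push Not at h
    have h1 : 1 ≤ ‖t - 1‖ := by
      rw [← norm_neg]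
      refine le_trans ?_ (Complex.re_le_norm _)
      simp
      exact h
    nlinarith [norm_nonneg (t - 1), norm_nonneg (t + 1)]

/-- the product of the square roots is near one -/
lemma prod_near (t t' u : ℂ) (hu : ‖u‖ ≤ 1 / 16) (h : ‖t - 1‖ ≤ 1 / 7 ∧ ‖t' - 1‖ ≤ 1 / 7 ∨
    ‖t + 1‖ ≤ 1 / 7 ∧ ‖t' + 1‖ ≤ 1 / 7) : ‖t * t' / (1 - u) - 1‖ < 1 := by
  have h1 : ‖t * t' - 1‖ ≤ 15 / 49 := by
    rcases h with ⟨h1, h2⟩ | ⟨h1, h2⟩
    · have h3 : t * t' - 1 = (t - 1) * (t' - 1) + (t - 1) + (t' - 1) := by ring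
      rw [h3]
      calc _ ≤ ‖(t - 1) * (t' - 1) + (t - 1)‖ + ‖t' - 1‖ := norm_add_le _ _
        _ ≤ ‖t - 1‖ * ‖t' - 1‖ + ‖t - 1‖ + ‖t' - 1‖ := by
            rw [← norm_mul]
            gcongr
            exact norm_add_le _ _
        _ ≤ 1 / 7 * (1 / 7) + 1 / 7 + 1 / 7 := by gcongr
        _ ≤ 15 / 49 := by norm_num
    · have h3 : t * t' - 1 = (t + 1) * (t' + 1) - (t + 1) - (t' + 1) := by ring
      rw [h3]
      calc _ ≤ ‖(t + 1) * (t' + 1) - (t + 1)‖ + ‖t' + 1‖ := norm_sub_le _ _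
        _ ≤ ‖t + 1‖ * ‖t' + 1‖ + ‖t + 1‖ + ‖t' + 1‖ := by
            rw [← norm_mul]
            gcongr
            exact norm_sub_le _ _
        _ ≤ 1 / 7 * (1 / 7) + 1 / 7 + 1 / 7 := by gcongr
        _ ≤ 15 / 49 := by norm_num
  have h2 : (15 / 16 : ℝ) ≤ ‖1 - u‖ := by
    have := norm_sub_norm_le (1 : ℂ) u
    rw [norm_one] at this
    linarith
  have h3 : (1 - u) ≠ 0 := by
    intro h
    rw [h, norm_zero] at h2
    norm_num at h2
  have h4 : t * t' / (1 - u) - 1 = (t * t' - 1 + u) / (1 - u) := by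
    field_simp
    ring
  rw [h4, norm_div, div_lt_one (by linarith)]
  calc ‖t * t' - 1 + u‖ ≤ ‖t * t' - 1‖ + ‖u‖ := norm_add_le _ _
    _ ≤ 15 / 49 + 1 / 16 := add_le_add h1 hu
    _ < 15 / 16 := by norm_num
    _ ≤ _ := h2

end Pool.Agent.N394.FPC
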