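import Pool.Agent.N394.FPC.A
import Pool.Agent.N394.FPC.B

/-!
# The gap principle and the counting

`gap` is the gap principle for two integral points in a class of the 2-descent for which the
signs of the square roots agree at all the roots of `g`, `gapS` is the consequence for finite sets of
integral points in a class.
-/

open Polynomial

set_option autoImplicit false

namespace Pool.Agent.N394.FPC

open Pool.Agent.Y910.F Pool.Agent.Y910.R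

/-- the gap principle -/
theorem gap (g : ℤ[X]) (H : ℕ) (hH : 1 ≤ H) (hg3 : 3 ≤ g.natDegree)
    (hsep : (g.map (Int.castRingHom ℚ)).Separable) (hcoef : ∀ i, |g.coeff i| ≤ H) (R : ℚ[X])
    (c x x' : ℤ) (hc : c ≠ 0) (hxx : x ≠ x')
    (hR : ∀ θ : ℂ, aeval θ g = 0 → aeval θ R ^ 2 = c * (x - θ) * (x' - θ)) (σ : ℂ)
    (hσ : σ ^ 2 = c * x * x') (hnear : ∀ θ : ℂ, aeval θ g = 0 → ‖aeval θ R / σ - 1‖ < 1)
    (hle : |x| ≤ |x'|) (hlt : |x'| < |x| ^ 2) : |x| ≤ 2 ^ 14 * (H : ℤ) ^ 10 := by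
  by_contra hcon
  push Not at hcon
  have hg0 : g ≠ 0 := by
    rintro rfl
    rw [natDegree_zero] at hg3
    omega
  have hHR : (1 : ℝ) ≤ H := by exact_mod_cast hH
  obtain ⟨Y, hY⟩ : ∃ Y : ℝ, Y = |(x : ℝ)| := ⟨_, rfl⟩
  obtain ⟨Y', hY'⟩ : ∃ Y' : ℝ, Y' = |(x' : ℝ)| := ⟨_, rfl⟩
  have h1 : 2 ^ 14 * (H : ℝ) ^ 10 < Y := by
    rw [hY]
    exact_mod_cast hcon
  have h2 : Y ≤ Y' := by
    rw [hY, hY']
    exact_mod_cast hle
  have h3 : Y' < Y ^ 2 := by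
    rw [hY, hY']
    exact_mod_cast hlt
  have hpow : (16384 : ℝ) * (H : ℝ) ^ 10 ≤ 2 ^ 14 * (H : ℝ) ^ 10 := by
    norm_num
  have hH10 : (H : ℝ) ≤ (H : ℝ) ^ 10 := le_self_pow₀ hHR (by norm_num)
  have hYH : 16384 * (H : ℝ) < Y := by nlinarith
  have hY0 : 0 < Y := by nlinarith
  have hY'0 : 0 < Y' := lt_of_lt_of_le hY0 h2
  have hx0 : (x : ℂ) ≠ 0 := by
    intro h
    have : (x : ℤ) = 0 := by exact_mod_cast h
    rw [this] at hY
    simp at hY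
    linarith
  have hx'0 : (x' : ℂ) ≠ 0 := by
    intro h
    have : (x' : ℤ) = 0 := by exact_mod_cast h
    rw [this] at hY'
    simp at hY'
    linarith
  have hcC : (c : ℂ) ≠ 0 := by exact_mod_cast hc
  have hσ0 : σ ≠ 0 := by
    rintro rfl
    rw [zero_pow two_ne_zero] at hσ
    exact mul_ne_zero (mul_ne_zero hcC hx0) hx'0 hσ.symm
  have hnx : ‖(x : ℂ)‖ = Y := by rw [Complex.norm_intCast, hY]
  have hnx' : ‖(x' : ℂ)‖ = Y' := by rw [Complex.norm_intCast, hY']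
  have hroot : ∀ θ : ℂ, aeval θ g = 0 → ‖θ‖ ≤ 2 * H := by
    intro θ hθ
    have := root_bound g H hg0 hcoef hH θ hθ
    push_cast at this
    exact this
  have hu : ∀ θ : ℂ, aeval θ g = 0 → ‖θ / x‖ ≤ 2 * H / Y := by
    intro θ hθ
    rw [norm_div, hnx]
    gcongr
    exact hroot θ hθ
  have hv : ∀ θ : ℂ, aeval θ g = 0 → ‖θ / x'‖ ≤ 2 * H / Y := by
    intro θ hθ
    rw [norm_div, hnx']
    calc ‖θ‖ / Y' ≤ 2 * H / Y' := by
          gcongr
          exact hroot θ hθ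
      _ ≤ 2 * H / Y := by gcongr
  have h4 : 2 * H / Y ≤ 1 / 4 := by
    rw [div_le_div_iff₀ hY0 (by norm_num)]
    nlinarith
  -- the error terms
  have he : ∀ θ : ℂ, aeval θ g = 0 → ∃ e : ℂ, aeval θ R = σ * (1 - (θ / x + θ / x') / 2 + e) ∧
      ‖e‖ ≤ 8 * H ^ 2 / Y ^ 2 := by
    intro θ hθ
    refine ⟨aeval θ R / σ - (1 - (θ / x + θ / x') / 2), ?_, ?_⟩
    · field_simp
      ring
    · refine (sqrt_near (θ / x) (θ / x') (aeval θ R / σ) ((hu θ hθ).trans h4) ((hv θ hθ).trans h4) ?_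
        (hnear θ hθ)).trans ?_
      · rw [div_pow, hR θ hθ, hσ]
        field_simp
      · have h5 : ‖θ / x - θ / x'‖ ≤ 4 * H / Y := by
          refine (norm_sub_le _ _).trans ?_
          have := add_le_add (hu θ hθ) (hv θ hθ)
          refine this.trans (le_of_eq ?_)
          ring
        calc ‖θ / x - θ / x'‖ ^ 2 / 2 ≤ (4 * H / Y) ^ 2 / 2 := by gcongr
          _ = 8 * H ^ 2 / Y ^ 2 := by
              rw [div_pow]
              ring
  have hW : ∀ θ₁ θ₂ θ₃ : ℂ, aeval θ₁ g = 0 → aeval θ₂ g = 0 → aeval θ₃ g = 0 →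
      ‖W R θ₁ θ₂ θ₃‖ ≤ ‖σ‖ * (96 * H ^ 3 / Y ^ 2) := by
    intro θ₁ θ₂ θ₃ h₁ h₂ h₃
    obtain ⟨e₁, f₁, n₁⟩ := he _ h₁
    obtain ⟨e₂, f₂, n₂⟩ := he _ h₂
    obtain ⟨e₃, f₃, n₃⟩ := he _ h₃
    have h5 : W R θ₁ θ₂ θ₃ = σ * (e₁ * (θ₂ - θ₃) + e₂ * (θ₃ - θ₁) + e₃ * (θ₁ - θ₂)) := by
      rw [W, f₁, f₂, f₃]
      ring
    have hd : ∀ a b : ℂ, aeval a g = 0 → aeval b g = 0 → ‖a - b‖ ≤ 4 * H := by
      intro a b ha hb
      refine (norm_sub_le _ _).trans ?_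
      have := add_le_add (hroot a ha) (hroot b hb)
      linarith
    rw [h5, norm_mul]
    apply mul_le_mul_of_nonneg_left _ (norm_nonneg _)
    calc ‖e₁ * (θ₂ - θ₃) + e₂ * (θ₃ - θ₁) + e₃ * (θ₁ - θ₂)‖
        ≤ ‖e₁ * (θ₂ - θ₃)‖ + ‖e₂ * (θ₃ - θ₁)‖ + ‖e₃ * (θ₁ - θ₂)‖ := norm_add₃_le
      _ = ‖e₁‖ * ‖θ₂ - θ₃‖ + ‖e₂‖ * ‖θ₃ - θ₁‖ + ‖e₃‖ * ‖θ₁ - θ₂‖ := by
          rw [norm_mul, norm_mul, norm_mul]
      _ ≤ (8 * H ^ 2 / Y ^ 2) * (4 * H) + (8 * H ^ 2 / Y ^ 2) * (4 * H) +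
          (8 * H ^ 2 / Y ^ 2) * (4 * H) := by
          have := hd _ _ h₂ h₃
          have := hd _ _ h₃ h₁
          have := hd _ _ h₁ h₂
          gcongr
      _ = 96 * H ^ 3 / Y ^ 2 := by ring
  have hsmall : ∀ θ₁ θ₂ θ₃ : ℂ, aeval θ₁ g = 0 → aeval θ₂ g = 0 → aeval θ₃ g = 0 →
      ‖(g.leadingCoeff : ℂ) ^ 4 / c * W R θ₁ θ₂ θ₃ ^ 2‖ < 1 := by
    intro θ₁ θ₂ θ₃ h₁ h₂ h₃
    have h5 := hW _ _ _ h₁ h₂ h₃
    have h6 : ‖(g.leadingCoeff : ℂ)‖ ≤ H := by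
      rw [Complex.norm_intCast]
      exact_mod_cast hcoef g.natDegree
    have hc0 : 0 < ‖(c : ℂ)‖ := norm_pos_iff.2 hcC
    have hσ2 : ‖σ‖ ^ 2 = ‖(c : ℂ)‖ * Y * Y' := by
      rw [← norm_pow, hσ, norm_mul, norm_mul, hnx, hnx']
    rw [norm_mul, norm_div, norm_pow, norm_pow]
    calc ‖(g.leadingCoeff : ℂ)‖ ^ 4 / ‖(c : ℂ)‖ * ‖W R θ₁ θ₂ θ₃‖ ^ 2
        ≤ (H : ℝ) ^ 4 / ‖(c : ℂ)‖ * (‖σ‖ * (96 * H ^ 3 / Y ^ 2)) ^ 2 := by gcongr
      _ = (H : ℝ) ^ 4 / ‖(c : ℂ)‖ * (‖σ‖ ^ 2 * (96 * H ^ 3 / Y ^ 2) ^ 2) := by ring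
      _ = 9216 * (H : ℝ) ^ 10 * Y' / Y ^ 3 := by
          rw [hσ2]
          field_simp
          ring
      _ < 1 := by
          rw [div_lt_one (by positivity)]
          calc 9216 * (H : ℝ) ^ 10 * Y' ≤ Y * Y' := by
                apply mul_le_mul_of_nonneg_right _ hY'0.le
                have : (0 : ℝ) < (H : ℝ) ^ 10 := by positivity
                linarith
            _ < Y * Y ^ 2 := by gcongr
            _ = Y ^ 3 := by ring
  obtain ⟨θ, hθi, hθ0, -⟩ := exists_enum g hsep g.natDegree rfl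
  obtain ⟨i0, hi0⟩ : ∃ i0 : Fin g.natDegree, i0.1 = 0 := ⟨⟨0, by omega⟩, rfl⟩
  obtain ⟨i1, hi1⟩ : ∃ i1 : Fin g.natDegree, i1.1 = 1 := ⟨⟨1, by omega⟩, rfl⟩
  obtain ⟨i2, hi2⟩ : ∃ i2 : Fin g.natDegree, i2.1 = 2 := ⟨⟨2, by omega⟩, rfl⟩
  have h01 : i0 ≠ i1 := by intro h; rw [h] at hi0; omega
  have h02 : i0 ≠ i2 := by intro h; rw [h] at hi0; omega
  have h12 : i1 ≠ i2 := by intro h; rw [h] at hi1; omega
  have h5 := W_zero g hg0 R c x x' hc hR hsmall (θ i0) (θ i1) (θ i2) (hθ0 _) (hθ0 _) (hθ0 _)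
  have h6 := eq_of_W_zero (c : ℂ) x x' hcC (θ i0) (θ i1) (θ i2) _ _ _ (hθi.ne h01) (hθi.ne h02)
    (hθi.ne h12) (hR _ (hθ0 i0)) (hR _ (hθ0 i1)) (hR _ (hθ0 i2)) h5
  exact hxx (by exact_mod_cast h6)

/-- an inverse modulo `g` -/
lemma exists_inv (g : ℤ[X]) (x : ℤ) (hx : aeval (x : ℂ) g ≠ 0) : ∃ U : ℚ[X], ∀ θ : ℂ,
    aeval θ g = 0 → aeval θ U * (x - θ) = 1 := by
  have h1 : IsCoprime (C (x : ℚ) - X) (g.map (Int.castRingHom ℚ)) := by
    have h2 : IsCoprime (X - C (x : ℚ)) (g.map (Int.castRingHom ℚ)) := by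
      rw [(irreducible_X_sub_C (x : ℚ)).coprime_iff_not_dvd, dvd_iff_isRoot]
      intro h
      apply hx
      have h3 : ((x : ℚ) : ℂ) = (x : ℂ) := by simp
      have h4 : aeval ((x : ℚ) : ℂ) (g.map (Int.castRingHom ℚ)) = 0 := by
        have h5 := aeval_algebraMap_apply ℂ (x : ℚ) (g.map (Int.castRingHom ℚ))
        rw [coe_aeval_eq_eval, h.eq_zero, map_zero] at h5
        exact h5
      rw [h3] at h4
      rw [← h4, aeval_def, aeval_def, eval₂_map]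
      congr 1
    have h3 : C (x : ℚ) - X = -(X - C (x : ℚ)) := by ring
    rw [h3]
    exact h2.neg_left
  obtain ⟨U, V, hUV⟩ := h1
  refine ⟨U, fun θ hθ => ?_⟩
  have h2 := congrArg (aeval θ) hUV
  simp only [map_add, map_mul, map_sub, aeval_C, aeval_X, map_one] at h2
  have h4 : aeval θ (g.map (Int.castRingHom ℚ)) = 0 := by
    rw [aeval_def, eval₂_map, ← hθ, aeval_def]
    congr 1
  rw [h4, mul_zero, add_zero] at h2
  simpa using h2

/-- the values at the roots of `g` -/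
lemma val_of_dvd (g : ℤ[X]) (P Q : ℚ[X]) (h : g.map (Int.castRingHom ℚ) ∣ P - Q) (θ : ℂ)
    (hθ : aeval θ g = 0) : aeval θ P = aeval θ Q := by
  obtain ⟨V, hV⟩ := h
  have h2 := congrArg (aeval θ) hV
  have h4 : aeval θ (g.map (Int.castRingHom ℚ)) = 0 := by
    rw [aeval_def, eval₂_map, ← hθ, aeval_def]
    congr 1
  rw [map_mul, h4, zero_mul, map_sub] at h2
  exact sub_eq_zero.1 h2

/-- the gap principle for finite sets in a class of the 2-descent -/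
theorem gapS (g : ℤ[X]) (H : ℕ) (hH : 1 ≤ H) (hg3 : 3 ≤ g.natDegree)
    (hsep : (g.map (Int.castRingHom ℚ)).Separable) (hcoef : ∀ i, |g.coeff i| ≤ H)
    (x0 : ℤ) (hx0 : 2 ^ 14 * (H : ℤ) ^ 10 < |x0|) (s : Finset ℤ)
    (hs : ∀ x ∈ s, 2 ^ 14 * (H : ℤ) ^ 10 < |x| ∧ ∃ b : ℤ, b ≠ 0 ∧ ∃ B : ℚ[X],
      ∀ θ : ℂ, aeval θ g = 0 → aeval θ B ^ 2 = b * (x0 - θ) * (x - θ))
    (hgap : ∀ x ∈ s, ∀ y ∈ s, |y| < |x| ^ 2) : s.card ≤ 2 ^ g.natDegree := by
  classical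
  by_contra hcon
  push Not at hcon
  have hg0 : g ≠ 0 := by
    rintro rfl
    rw [natDegree_zero] at hg3
    omega
  have hHR : (1 : ℝ) ≤ H := by exact_mod_cast hH
  have hroot : ∀ θ : ℂ, aeval θ g = 0 → ‖θ‖ ≤ 2 * H := by
    intro θ hθ
    have := root_bound g H hg0 hcoef hH θ hθ
    push_cast at this
    exact this
  have hbig : ∀ x : ℤ, 2 ^ 14 * (H : ℤ) ^ 10 < |x| → 32 * (H : ℝ) < ‖(x : ℂ)‖ := by
    intro x hx
    rw [Complex.norm_intCast]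
    have h1 : 2 ^ 14 * (H : ℝ) ^ 10 < |(x : ℝ)| := by exact_mod_cast hx
    have h2 : (H : ℝ) ≤ (H : ℝ) ^ 10 := le_self_pow₀ hHR (by norm_num)
    nlinarith
  have hsm : ∀ x : ℤ, 2 ^ 14 * (H : ℤ) ^ 10 < |x| → ∀ θ : ℂ, aeval θ g = 0 → ‖θ / x‖ ≤ 1 / 16 := by
    intro x hx θ hθ
    have h1 := hbig x hx
    rw [norm_div, div_le_div_iff₀ (by linarith) (by norm_num)]
    have := hroot θ hθ
    linarith
  have hne : ∀ x : ℤ, 2 ^ 14 * (H : ℤ) ^ 10 < |x| → (x : ℂ) ≠ 0 := by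
    intro x hx h
    have h1 := hbig x hx
    rw [h, norm_zero] at h1
    linarith
  have hx0g : aeval (x0 : ℂ) g ≠ 0 := by
    intro h
    have h1 := hroot _ h
    have h2 := hbig x0 hx0
    linarith
  obtain ⟨U, hU⟩ := exists_inv g x0 hx0g
  have hdata : ∀ x : ℤ, ∃ (b : ℤ) (B : ℚ[X]) (σ : ℂ), x ∈ s → b ≠ 0 ∧
      (∀ θ : ℂ, aeval θ g = 0 → aeval θ B ^ 2 = b * (x0 - θ) * (x - θ)) ∧ σ ^ 2 = b * x0 * x := by
    intro x
    by_cases hx : x ∈ s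
    · obtain ⟨b, hb, B, hB⟩ := (hs x hx).2
      obtain ⟨σ, hσ⟩ : ∃ σ : ℂ, σ ^ 2 = b * x0 * x := IsAlgClosed.exists_pow_nat_eq _ (by norm_num)
      exact ⟨b, B, σ, fun _ => ⟨hb, hB, hσ⟩⟩
    · exact ⟨0, 0, 0, fun h => absurd h hx⟩
  choose b B σ hbB using hdata
  obtain ⟨Z, hZ⟩ : ∃ Z, Z = (g.map (Int.castRingHom ℂ)).roots.toFinset := ⟨_, rfl⟩
  have hZmem : ∀ θ : ℂ, aeval θ g = 0 → θ ∈ Z := by
    intro θ hθ
    rw [hZ, Multiset.mem_toFinset, mem_roots ((Polynomial.map_ne_zero_iff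
      (RingHom.injective_int _)).2 hg0), IsRoot.def, eval_map, ← hθ, aeval_def]
    congr 1
  have hZcard : Z.card ≤ g.natDegree := by
    rw [hZ]
    refine (Multiset.toFinset_card_le _).trans ((card_roots' _).trans ?_)
    exact natDegree_map_le
  obtain ⟨F, hF⟩ : ∃ F : ℤ → Finset ℂ, ∀ x, F x = Z.filter fun θ => 0 < (aeval θ (B x) / σ x).re :=
    ⟨_, fun _ => rfl⟩
  obtain ⟨x, hx, y, hy, hxy, hFxy⟩ := Finset.exists_ne_map_eq_of_card_lt_of_maps_to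
    (s := s) (t := Z.powerset) (f := F) (by
      rw [Finset.card_powerset]
      exact (Nat.pow_le_pow_right (by norm_num) hZcard).trans_lt hcon) (by
      intro x _
      rw [Finset.mem_coe, Finset.mem_powerset, hF]
      exact Finset.filter_subset _ _)
  -- the two points
  have key : ∀ x ∈ s, ∀ y ∈ s, x ≠ y → F x = F y → |x| ≤ |y| → False := by
    intro x hx y hy hxy hFxy hle
    obtain ⟨hbx, hBx, hσx⟩ := hbB x hx
    obtain ⟨hby, hBy, hσy⟩ := hbB y hy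
    have hxl := (hs x hx).1
    have hyl := (hs y hy).1
    have hx00 := hne x0 hx0
    have hbxC : (b x : ℂ) ≠ 0 := by exact_mod_cast hbx
    have hbyC : (b y : ℂ) ≠ 0 := by exact_mod_cast hby
    have hxC := hne x hxl
    have hyC := hne y hyl
    have hσx0 : σ x ≠ 0 := by
      intro h
      rw [h, zero_pow two_ne_zero] at hσx
      exact mul_ne_zero (mul_ne_zero hbxC hx00) hxC hσx.symm
    have hσy0 : σ y ≠ 0 := by
      intro h
      rw [h, zero_pow two_ne_zero] at hσy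
      exact mul_ne_zero (mul_ne_zero hbyC hx00) hyC hσy.symm
    have h1 := gap g H hH hg3 hsep hcoef (B x * B y * U) (b x * b y) x y (mul_ne_zero hbx hby) hxy
      (by
        intro θ hθ
        have h2 := hU θ hθ
        rw [map_mul, map_mul, mul_pow, mul_pow, hBx θ hθ, hBy θ hθ]
        push_cast
        linear_combination ((b x : ℂ) * b y * (x - θ) * (y - θ)) * (aeval θ U * (x0 - θ) + 1) * h2)
      (σ x * σ y / x0) (by
        rw [div_pow, mul_pow, hσx, hσy]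
        push_cast
        field_simp) (by
        intro θ hθ
        have h2 := hU θ hθ
        have h3 : (x0 : ℂ) - θ ≠ 0 := by
          intro h
          rw [h, mul_zero] at h2
          exact zero_ne_one h2
        have h4 : aeval θ U = 1 / (x0 - θ) := by
          field_simp
          exact h2
        have h5 : aeval θ (B x * B y * U) / (σ x * σ y / x0) =
            (aeval θ (B x) / σ x) * (aeval θ (B y) / σ y) / (1 - θ / x0) := by
          rw [map_mul, map_mul, h4]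
          have h6 : 1 - θ / x0 ≠ 0 := by
            intro h
            apply h3
            field_simp at h
            rw [mul_zero] at h
            exact h
          field_simp
        rw [h5]
        have hsx : (aeval θ (B x) / σ x) ^ 2 = (1 - θ / x0) * (1 - θ / x) := by
          rw [div_pow, hBx θ hθ, hσx]
          field_simp
        have hsy : (aeval θ (B y) / σ y) ^ 2 = (1 - θ / x0) * (1 - θ / y) := by
          rw [div_pow, hBy θ hθ, hσy]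
          field_simp
        have h6 := sqrt_sign _ _ _ (hsm x0 hx0 θ hθ) (hsm x hxl θ hθ) hsx
        have h7 := sqrt_sign _ _ _ (hsm x0 hx0 θ hθ) (hsm y hyl θ hθ) hsy
        apply prod_near _ _ _ (hsm x0 hx0 θ hθ)
        have h8 : θ ∈ F x ↔ θ ∈ F y := by rw [hFxy]
        rw [hF, hF, Finset.mem_filter, Finset.mem_filter] at h8
        have hθZ := hZmem θ hθ
        by_cases h9 : 0 < (aeval θ (B x) / σ x).re
        · exact Or.inl ⟨h6.1 h9, h7.1 (h8.1 ⟨hθZ, h9⟩).2⟩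
        · exact Or.inr ⟨h6.2 h9, h7.2 fun h => h9 (h8.2 ⟨hθZ, h⟩).2⟩) hle (hgap x hx y hy)
    exact absurd h1 (not_le.2 hxl)
  rcases le_total |x| |y| with h | h
  · exact key x hx y hy hxy hFxy h
  · exact key y hy x hx hxy.symm hFxy.symm h

end Pool.Agent.N394.FPC
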