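import Pool.Agent.N394.FPC.C

/-!
# Few large integral points in a class of the 2-descent over `ℚ`, all quadratic twists
-/

open Polynomial

set_option autoImplicit false

namespace Pool.Agent.N394.FPC

open Pool.Agent.Y910.F Pool.Agent.Y910.R

/-- divisibility by `g` can be tested at the roots of `g` -/
lemma dvd_of_val (g : ℤ[X]) (hsep : (g.map (Int.castRingHom ℚ)).Separable) (P : ℚ[X])
    (h : ∀ θ : ℂ, aeval θ g = 0 → aeval θ P = 0) : g.map (Int.castRingHom ℚ) ∣ P := by
  classical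
  by_cases hP : P = 0
  · rw [hP]; exact dvd_zero _
  obtain ⟨G, hG⟩ : ∃ G : ℂ[X], G = (g.map (Int.castRingHom ℚ)).map (algebraMap ℚ ℂ) := ⟨_, rfl⟩
  have hGs : G.Separable := by rw [hG]; exact hsep.map
  have hG0 : G ≠ 0 := hGs.ne_zero
  have hP0 : P.map (algebraMap ℚ ℂ) ≠ 0 :=
    (Polynomial.map_ne_zero_iff (algebraMap ℚ ℂ).injective).2 hP
  rw [← Polynomial.map_dvd_map' (algebraMap ℚ ℂ), ← hG]
  apply (IsAlgClosed.splits G).dvd_of_roots_le_roots hG0
  rw [Multiset.le_iff_subset (nodup_roots hGs)]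
  intro θ hθ
  rw [mem_roots hG0, IsRoot.def, hG, eval_map_algebraMap] at hθ
  rw [mem_roots hP0, IsRoot.def, eval_map_algebraMap]
  apply h
  rw [← hθ, aeval_def, aeval_def, eval₂_map]
  congr 1

/-- few large integral points in a class -/
theorem classQ (e : ℕ) (he : 3 ≤ e) : ∃ N : ℕ, ∀ (H : ℕ) (g : ℤ[X]), 1 ≤ H → g.natDegree = e →
    (g.map (Int.castRingHom ℚ)).Separable → (∀ i, |g.coeff i| ≤ H) → ∀ s : Finset ℤ,
    (∀ x ∈ s, 2 ^ 14 * (H : ℤ) ^ 10 < |x|) →
    (∀ x ∈ s, ∀ y ∈ s, ∃ b : ℤ, b ≠ 0 ∧ ∃ B : ℚ[X],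
      ∀ θ : ℂ, aeval θ g = 0 → aeval θ B ^ 2 = b * (x - θ) * (y - θ)) → s.card ≤ N := by
  classical
  obtain ⟨M1, N1, hMN⟩ := frameT_done e he
  refine ⟨N1 + (3 * M1 + 1) * 2 ^ e, ?_⟩
  intro H g hH hdeg hsep hcoef s hs1 hs2
  rcases s.eq_empty_or_nonempty with rfl | hsne
  · simp
  obtain ⟨x0, hx0, hmin⟩ := Finset.exists_min_image s (fun x : ℤ => |x|) hsne
  have hg0 : g ≠ 0 := by
    rintro rfl
    rw [natDegree_zero] at hdeg
    omega
  have hHZ : (1 : ℤ) ≤ H := by exact_mod_cast hH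
  have hH10 : (H : ℤ) ≤ (H : ℤ) ^ 10 := le_self_pow₀ hHZ (by norm_num)
  have hx0l := hs1 x0 hx0
  have hx0H : 32 * (H : ℤ) ≤ |x0| := by
    have : 32 * (H : ℤ) ≤ 2 ^ 14 * (H : ℤ) ^ 10 := by nlinarith
    omega
  obtain ⟨m, hm⟩ : ∃ m : ℕ, m = x0.natAbs := ⟨_, rfl⟩
  have hmZ : (m : ℤ) = |x0| := by rw [hm]; exact Int.natCast_natAbs x0
  have hm2 : 2 ≤ m := by
    have : (2 : ℤ) ≤ m := by rw [hmZ]; omega
    exact_mod_cast this
  have hHm : 32 * H ≤ m := by
    have : (32 * (H : ℤ)) ≤ m := by rw [hmZ]; exact hx0H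
    exact_mod_cast this
  -- the points of large height
  have hc1 : (s.filter fun x => (2 * ((m ^ 2 : ℕ) : ℤ)) ^ M1 < |x|).card ≤ N1 := by
    apply hMN (m ^ 2) g (C (g.leadingCoeff : ℚ) * (C (x0 : ℚ) - X)) _ (by nlinarith) hdeg hsep
    · intro i
      refine (hcoef i).trans ?_
      have : H ≤ m ^ 2 := by nlinarith
      exact_mod_cast this
    · intro θ hθ
      have h1 : aeval θ (C (g.leadingCoeff : ℚ) * (C (x0 : ℚ) - X)) =
          (g.leadingCoeff : ℂ) * (x0 - θ) := by
        simp [aeval_C]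
      have h2 := root_bound g H hg0 hcoef hH θ hθ
      push_cast at h2
      have h3 : ‖((x0 : ℤ) : ℂ)‖ = m := by
        rw [Complex.norm_intCast]
        exact_mod_cast hmZ.symm
      have hHmR : 32 * (H : ℝ) ≤ m := by exact_mod_cast hHm
      have hHR : (1 : ℝ) ≤ H := by exact_mod_cast hH
      rw [h1]
      refine ⟨?_, ?_, ?_⟩
      · have hz : ∀ n : ℤ, IsIntegral ℤ (n : ℂ) := fun n =>
          isIntegral_algebraMap (R := ℤ) (x := n)
        have h5 : IsIntegral ℤ ((g.leadingCoeff : ℂ) * θ) := by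
          have := isIntegral_leadingCoeff_smul g θ hθ
          rwa [zsmul_eq_mul] at this
        rw [mul_sub]
        exact ((hz _).mul (hz _)).sub h5
      · apply mul_ne_zero
        · exact_mod_cast leadingCoeff_ne_zero.2 hg0
        · intro h
          have h4 : (x0 : ℂ) = θ := sub_eq_zero.1 h
          rw [← h4, h3] at h2
          linarith
      · have h6 : ‖(g.leadingCoeff : ℂ)‖ ≤ H := by
          rw [Complex.norm_intCast]
          exact_mod_cast hcoef g.natDegree
        rw [norm_mul]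
        calc ‖(g.leadingCoeff : ℂ)‖ * ‖(x0 : ℂ) - θ‖ ≤ H * (m + 2 * H) := by
              apply mul_le_mul h6 _ (norm_nonneg _) (by linarith)
              refine (norm_sub_le _ _).trans ?_
              rw [h3]
              linarith
          _ ≤ ((m ^ 2 : ℕ) : ℝ) := by
              push_cast
              nlinarith
    · intro x hx
      rw [Finset.mem_filter] at hx
      refine ⟨hx.2, ?_⟩
      obtain ⟨b, hb, B, hB⟩ := hs2 x0 hx0 x hx.1
      refine ⟨g.leadingCoeff * b, mul_ne_zero (leadingCoeff_ne_zero.2 hg0) hb,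
        C (g.leadingCoeff : ℚ) * B, ?_⟩
      apply dvd_of_val g hsep
      intro θ hθ
      have h1 := hB θ hθ
      simp only [map_sub, map_mul, map_pow, aeval_C, aeval_X]
      simp only [eq_ratCast, Rat.cast_intCast]
      rw [mul_pow, h1]
      push_cast
      ring
  -- the remaining points
  have hc2 : (s.filter fun x => ¬ (2 * ((m ^ 2 : ℕ) : ℤ)) ^ M1 < |x|).card
      ≤ (3 * M1 + 1) * 2 ^ e := by
    have hsub : (s.filter fun x => ¬ (2 * ((m ^ 2 : ℕ) : ℤ)) ^ M1 < |x|) ⊆
        (Finset.range (3 * M1 + 1)).biUnion fun k =>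
          s.filter fun x => (m : ℤ) ^ (2 ^ k) ≤ |x| ∧ |x| < (m : ℤ) ^ (2 ^ (k + 1)) := by
      intro x hx
      rw [Finset.mem_filter, not_lt] at hx
      obtain ⟨hxs, hxl⟩ := hx
      have h1 : |x| < (m : ℤ) ^ (2 ^ (3 * M1 + 1)) := by
        refine hxl.trans_lt ?_
        have h2 : (2 * m ^ 2) ^ M1 < m ^ (2 ^ (3 * M1 + 1)) := by
          calc (2 * m ^ 2) ^ M1 ≤ (m ^ 3) ^ M1 := by
                apply Nat.pow_le_pow_left
                have : m ^ 3 = m * m ^ 2 := by ring
                rw [this]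
                exact Nat.mul_le_mul_right _ hm2
            _ = m ^ (3 * M1) := by rw [← pow_mul]
            _ < m ^ (2 ^ (3 * M1 + 1)) := by
                apply Nat.pow_lt_pow_right (by omega)
                calc 3 * M1 < 3 * M1 + 1 := Nat.lt_succ_self _
                  _ < 2 ^ (3 * M1 + 1) := Nat.lt_two_pow_self
        exact_mod_cast h2
      have hex : ∃ k, |x| < (m : ℤ) ^ (2 ^ (k + 1)) := ⟨3 * M1, h1⟩
      rw [Finset.mem_biUnion]
      refine ⟨Nat.find hex, ?_, ?_⟩
      · rw [Finset.mem_range]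
        have := Nat.find_min' hex h1
        omega
      · rw [Finset.mem_filter]
        refine ⟨hxs, ?_, Nat.find_spec hex⟩
        rcases Nat.eq_zero_or_pos (Nat.find hex) with h0 | h0
        · rw [h0, pow_zero, pow_one, hmZ]
          exact hmin x hxs
        · have h2 := Nat.find_min hex (Nat.sub_lt h0 one_pos)
          rw [not_lt] at h2
          have h3 : Nat.find hex - 1 + 1 = Nat.find hex := by omega
          rw [h3] at h2
          exact h2
    refine (Finset.card_le_card hsub).trans ?_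
    have h1 := Finset.card_biUnion_le_card_mul (Finset.range (3 * M1 + 1))
      (fun k => s.filter fun x => (m : ℤ) ^ (2 ^ k) ≤ |x| ∧ |x| < (m : ℤ) ^ (2 ^ (k + 1)))
      (2 ^ e) (by
        intro k _
        rw [← hdeg]
        apply gapS g H hH (by omega) hsep hcoef x0 hx0l
        · intro x hx
          rw [Finset.mem_filter] at hx
          refine ⟨hs1 x hx.1, ?_⟩
          obtain ⟨b, hb, B, hB⟩ := hs2 x0 hx0 x hx.1
          exact ⟨b, hb, B, hB⟩
        · intro x hx y hy
          rw [Finset.mem_filter] at hx hy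
          calc |y| < (m : ℤ) ^ (2 ^ (k + 1)) := hy.2.2
            _ = ((m : ℤ) ^ (2 ^ k)) ^ 2 := by rw [← pow_mul, ← pow_succ]
            _ ≤ |x| ^ 2 := pow_le_pow_left₀ (by positivity) hx.2.1 2)
    rw [Finset.card_range] at h1
    exact h1
  have h3 := Finset.card_filter_add_card_filter_not (s := s)
    (fun x => (2 * ((m ^ 2 : ℕ) : ℤ)) ^ M1 < |x|)
  omega

end Pool.Agent.N394.FPC
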