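import Pool.Agent.N394.FPC.D

/-!
# Few large integral points in a class of the 2-descent over a number field

The classes over a number field `K` (modulo squares and modulo `K`) consist of at most
`2 ^ (d [K : ℚ])` classes over `ℚ`.
-/

open Polynomial

set_option autoImplicit false

namespace Pool.Agent.N394.FPC

open Pool.Agent.Y910.F Pool.Agent.Y910.R

/-- a number with only one conjugate is rational -/
lemma rat_of_conj {K : Type*} [Field K] [NumberField K] (a : K)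
    (h : ∀ φ ψ : K →ₐ[ℚ] ℂ, φ a = ψ a) : ∃ q : ℚ, (q : K) = a := by
  classical
  have hcard : Fintype.card (K →ₐ[ℚ] ℂ) = Module.finrank ℚ K := AlgHom.card ℚ K ℂ
  have hpos : 0 < Module.finrank ℚ K := Module.finrank_pos
  obtain ⟨φ0⟩ : Nonempty (K →ₐ[ℚ] ℂ) := Fintype.card_pos_iff.1 (by omega)
  refine ⟨Algebra.trace ℚ K a / Module.finrank ℚ K, ?_⟩
  apply (φ0 : K →+* ℂ).injective
  have h1 : ((Algebra.trace ℚ K a : ℚ) : ℂ) = ∑ φ : K →ₐ[ℚ] ℂ, φ a := by
    have := trace_eq_sum_embeddings ℂ (K := ℚ) (L := K) (x := a)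
    simpa using this
  have h2 : ∑ φ : K →ₐ[ℚ] ℂ, φ a = Module.finrank ℚ K * φ0 a := by
    rw [Finset.sum_congr rfl fun φ _ => h φ φ0, Finset.sum_const, Finset.card_univ, hcard,
      nsmul_eq_mul]
  have h3 : (Module.finrank ℚ K : ℂ) ≠ 0 := by exact_mod_cast hpos.ne'
  have h4 : ∀ q : ℚ, (φ0 : K →+* ℂ) (q : K) = (q : ℂ) := fun q => map_ratCast _ q
  rw [h4]
  push_cast
  rw [h1, h2]
  field_simp

/-- descent to `ℚ` -/
lemma descend {K : Type*} [Field K] [NumberField K] (g : ℤ[X]) (e : ℕ) (hdeg : g.natDegree = e)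
    (he : 1 ≤ e)
    (θ : Fin e → ℂ) (hθi : Function.Injective θ) (hθ0 : ∀ i, aeval (θ i) g = 0) (P : K[X])
    (c : (K →ₐ[ℚ] ℂ) → ℂ) (q : Fin e → ℂ) (hc : ∀ φ, c φ ≠ 0) (hq : ∀ i, q i ≠ 0)
    (hP : ∀ φ : K →ₐ[ℚ] ℂ, ∀ i, eval₂ (φ : K →+* ℂ) (θ i) P = c φ * q i) :
    ∃ (P0 : ℚ[X]) (p : K) (l : ℂ), p ≠ 0 ∧ (∀ φ : K →ₐ[ℚ] ℂ, c φ = l * φ p) ∧
      ∀ i, aeval (θ i) P0 = l * q i := by
  classical
  have hg0 : g ≠ 0 := by
    rintro rfl
    rw [natDegree_zero] at hdeg
    omega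
  have hgK0 : g.map (Int.castRingHom K) ≠ 0 :=
    (Polynomial.map_ne_zero_iff (RingHom.injective_int _)).2 hg0
  have hgKd : (g.map (Int.castRingHom K)).natDegree = e := by
    rw [natDegree_map_eq_of_injective (RingHom.injective_int _), hdeg]
  obtain ⟨P', hP'⟩ : ∃ P', P' = P % g.map (Int.castRingHom K) := ⟨_, rfl⟩
  have hval : ∀ φ : K →ₐ[ℚ] ℂ, ∀ i, eval₂ (φ : K →+* ℂ) (θ i) P' = c φ * q i := by
    intro φ i
    rw [← hP φ i]
    conv_rhs => rw [← EuclideanDomain.div_add_mod P (g.map (Int.castRingHom K))]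
    rw [eval₂_add, eval₂_mul, eval₂_map]
    have h1 : eval₂ ((φ : K →+* ℂ).comp (Int.castRingHom K)) (θ i) g = 0 := by
      rw [← hθ0 i, aeval_def]
      congr 1
      exact RingHom.ext_int _ _
    rw [h1, zero_mul, zero_add, hP']
  have hcard : Fintype.card (K →ₐ[ℚ] ℂ) = Module.finrank ℚ K := AlgHom.card ℚ K ℂ
  have hpos : 0 < Module.finrank ℚ K := Module.finrank_pos
  obtain ⟨φ0⟩ : Nonempty (K →ₐ[ℚ] ℂ) := Fintype.card_pos_iff.1 (by omega)
  have hP'0 : P' ≠ 0 := by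
    intro h
    have h1 := hval φ0 ⟨0, by omega⟩
    rw [h, eval₂_zero] at h1
    exact mul_ne_zero (hc _) (hq _) h1.symm
  have hP'd : P'.natDegree < e := by
    rw [← hgKd]
    apply natDegree_lt_natDegree hP'0
    rw [hP']
    exact degree_mod_lt _ hgK0
  obtain ⟨p, hp⟩ : ∃ p, p = P'.leadingCoeff := ⟨_, rfl⟩
  have hp0 : p ≠ 0 := by rw [hp]; exact leadingCoeff_ne_zero.2 hP'0
  have hφp : ∀ φ : K →ₐ[ℚ] ℂ, φ p ≠ 0 := fun φ => (map_ne_zero φ).2 hp0
  -- the normalized polynomials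
  have heq : ∀ φ ψ : K →ₐ[ℚ] ℂ, c φ / φ p = c ψ / ψ p ∧
      ∀ k, φ (P'.coeff k / p) = ψ (P'.coeff k / p) := by
    intro φ ψ
    have h1 : C (c ψ) * P'.map (φ : K →+* ℂ) = C (c φ) * P'.map (ψ : K →+* ℂ) := by
      apply Polynomial.eq_of_natDegree_lt_card_of_eval_eq (ι := Fin e) _ _ hθi
      · intro i
        rw [eval_mul, eval_mul, eval_C, eval_C, eval_map, eval_map, hval, hval]
        ring
      · rw [Fintype.card_fin]
        have h2 : (C (c ψ) * P'.map (φ : K →+* ℂ)).natDegree ≤ P'.natDegree :=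
          (natDegree_C_mul_le _ _).trans natDegree_map_le
        have h3 : (C (c φ) * P'.map (ψ : K →+* ℂ)).natDegree ≤ P'.natDegree :=
          (natDegree_C_mul_le _ _).trans natDegree_map_le
        exact max_lt (h2.trans_lt hP'd) (h3.trans_lt hP'd)
    have h2 : ∀ k, c ψ * φ (P'.coeff k) = c φ * ψ (P'.coeff k) := by
      intro k
      have h3 := congrArg (fun Q : ℂ[X] => Q.coeff k) h1
      simp only [coeff_C_mul, coeff_map] at h3
      exact h3
    have h3 := h2 P'.natDegree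
    have h4 : P'.coeff P'.natDegree = p := by rw [hp]; rfl
    rw [h4] at h3
    have h5 := hφp φ
    have h6 := hφp ψ
    have h7 : c φ / φ p = c ψ / ψ p := by
      rw [div_eq_div_iff h5 h6]
      exact h3.symm
    refine ⟨h7, fun k => ?_⟩
    rw [map_div₀, map_div₀, div_eq_div_iff h5 h6]
    have h8 := h2 k
    have h9 : c φ * (φ (P'.coeff k) * ψ p - ψ (P'.coeff k) * φ p) = 0 := by
      linear_combination φ p * h8 - φ (P'.coeff k) * h3
    have h10 := (mul_eq_zero.1 h9).resolve_left (hc φ)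
    exact sub_eq_zero.1 h10
  have hrat : ∀ k, ∃ r : ℚ, (r : K) = P'.coeff k / p := fun k =>
    rat_of_conj _ fun φ ψ => (heq φ ψ).2 k
  choose r hr using hrat
  obtain ⟨P0, hP0⟩ : ∃ P0 : ℚ[X], P0 = ∑ k ∈ Finset.range e, C (r k) * X ^ k := ⟨_, rfl⟩
  refine ⟨P0, p, c φ0 / φ0 p, hp0, ?_, ?_⟩
  · intro φ
    rw [← (heq φ φ0).1]
    have := hφp φ
    field_simp
  · intro i
    have h1 := hval φ0 i
    rw [eval₂_eq_sum_range' _ hP'd] at h1
    have h2 : aeval (θ i) P0 = ∑ k ∈ Finset.range e, (r k : ℂ) * θ i ^ k := by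
      rw [hP0, map_sum]
      refine Finset.sum_congr rfl fun k _ => ?_
      simp
    have h3 := hφp φ0
    have h4 : ∀ k, (r k : ℂ) = φ0 (P'.coeff k) / φ0 p := by
      intro k
      rw [← map_div₀, ← hr, map_ratCast]
    rw [h2, Finset.sum_congr rfl fun k _ => by rw [h4]]
    have h5 : ∑ k ∈ Finset.range e, φ0 (P'.coeff k) / φ0 p * θ i ^ k =
        (∑ k ∈ Finset.range e, φ0 (P'.coeff k) * θ i ^ k) / φ0 p := by
      rw [Finset.sum_div]
      refine Finset.sum_congr rfl fun k _ => ?_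
      ring
    rw [h5]
    have h6 : ∑ k ∈ Finset.range e, φ0 (P'.coeff k) * θ i ^ k = c φ0 * q i := h1
    rw [h6]
    field_simp

/-- few large integral points in a class over a number field -/
theorem classK (e : ℕ) (he : 3 ≤ e) : ∃ N : ℕ, ∀ (K : Type) [Field K] [NumberField K] (H : ℕ)
    (g : ℤ[X]), 1 ≤ H → g.natDegree = e →
    (g.map (Int.castRingHom ℚ)).Separable → (∀ i, |g.coeff i| ≤ H) → ∀ s : Finset ℤ,
    (∀ x ∈ s, 2 ^ 14 * (H : ℤ) ^ 10 < |x|) →
    (∀ x ∈ s, ∀ y ∈ s, ∃ b : K, b ≠ 0 ∧ ∃ B : K[X], ∀ φ : K →ₐ[ℚ] ℂ,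
      ∀ θ : ℂ, aeval θ g = 0 → eval₂ (φ : K →+* ℂ) θ B ^ 2 = φ b * (x - θ) * (y - θ)) →
    s.card ≤ N * 2 ^ (e * Module.finrank ℚ K) := by
  classical
  obtain ⟨N, hN⟩ := classQ e he
  refine ⟨N, ?_⟩
  intro K _ _ H g hH hdeg hsep hcoef s hs1 hs2
  rcases s.eq_empty_or_nonempty with rfl | ⟨x0, hx0⟩
  · simp
  have hg0 : g ≠ 0 := by
    rintro rfl
    rw [natDegree_zero] at hdeg
    omega
  obtain ⟨θ, hθi, hθ0, hθs⟩ := exists_enum g hsep e hdeg
  have hθall : ∀ r : ℂ, aeval r g = 0 → ∃ i, θ i = r := by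
    intro r hr
    by_contra hcon
    push Not at hcon
    have h1 := hθs (fun z => if z = r then 1 else 0)
    rw [Finset.sum_eq_zero fun i _ => if_neg (hcon i)] at h1
    rw [Finset.sum_ite_eq', if_pos] at h1
    · exact zero_ne_one h1
    · rw [Multiset.mem_toFinset, mem_roots, IsRoot.def, eval_map_algebraMap, aeval_def, eval₂_map,
        ← hr, aeval_def]
      · congr 1
      · exact (hsep.map (f := algebraMap ℚ ℂ)).ne_zero
  have hHR : (1 : ℝ) ≤ H := by exact_mod_cast hH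
  have hroot : ∀ r : ℂ, aeval r g = 0 → ‖r‖ ≤ 2 * H := by
    intro r hr
    have := root_bound g H hg0 hcoef hH r hr
    push_cast at this
    exact this
  have hbig : ∀ x ∈ s, ∀ i, (x : ℂ) - θ i ≠ 0 := by
    intro x hx i h
    have h1 : (2 : ℝ) ^ 14 * (H : ℝ) ^ 10 < |(x : ℝ)| := by exact_mod_cast hs1 x hx
    have h2 : (H : ℝ) ≤ (H : ℝ) ^ 10 := le_self_pow₀ hHR (by norm_num)
    have h3 := hroot _ (hθ0 i)
    rw [← sub_eq_zero.1 h, Complex.norm_intCast] at h3
    nlinarith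
  have hx0g : aeval (x0 : ℂ) g ≠ 0 := by
    intro h
    obtain ⟨i, hi⟩ := hθall _ h
    exact hbig x0 hx0 i (by rw [hi, sub_self])
  obtain ⟨U, hU⟩ := exists_inv g x0 hx0g
  -- the square roots
  have hdata : ∀ x : ℤ, ∃ (b : K) (B : K[X]) (σ : (K →ₐ[ℚ] ℂ) → ℂ) (q : Fin e → ℂ), x ∈ s → b ≠ 0 ∧
      (∀ φ : K →ₐ[ℚ] ℂ, ∀ i, eval₂ (φ : K →+* ℂ) (θ i) B ^ 2 = φ b * (x0 - θ i) * (x - θ i)) ∧
      (∀ φ, σ φ ^ 2 = φ b) ∧ ∀ i, q i ^ 2 = (x0 - θ i) * (x - θ i) := by
    intro x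
    by_cases hx : x ∈ s
    · obtain ⟨b, hb, B, hB⟩ := hs2 x0 hx0 x hx
      have h1 : ∀ z : ℂ, ∃ w : ℂ, w ^ 2 = z := fun z => IsAlgClosed.exists_pow_nat_eq _ (by norm_num)
      choose w hw using h1
      exact ⟨b, B, fun φ => w (φ b), fun i => w ((x0 - θ i) * (x - θ i)), fun _ =>
        ⟨hb, fun φ i => hB φ _ (hθ0 i), fun φ => hw _, fun i => hw _⟩⟩
    · exact ⟨0, 0, 0, 0, fun h => absurd h hx⟩
  choose b B σ q hbB using hdata
  obtain ⟨F, hF⟩ : ∃ F : ℤ → Finset ((K →ₐ[ℚ] ℂ) × Fin e), ∀ x, F x = Finset.univ.filter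
    fun p => eval₂ (p.1 : K →+* ℂ) (θ p.2) (B x) = σ x p.1 * q x p.2 := ⟨_, fun _ => rfl⟩
  have hcard : Fintype.card (K →ₐ[ℚ] ℂ) = Module.finrank ℚ K := AlgHom.card ℚ K ℂ
  have hmain := Finset.card_le_mul_card_image_of_maps_to (s := s)
    (t := (Finset.univ : Finset (Finset ((K →ₐ[ℚ] ℂ) × Fin e)))) (f := F)
    (fun _ _ => Finset.mem_univ _) N (by
      intro t _
      apply hN H g hH hdeg hsep hcoef
      · intro x hx
        rw [Finset.mem_filter] at hx
        exact hs1 x hx.1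
      · intro x hx y hy
        rw [Finset.mem_filter] at hx hy
        obtain ⟨hbx, hBx, hσx, hqx⟩ := hbB x hx.1
        obtain ⟨hby, hBy, hσy, hqy⟩ := hbB y hy.1
        have hFxy : F x = F y := by rw [hx.2, hy.2]
        have hσ0 : ∀ z ∈ s, ∀ φ, σ z φ ≠ 0 := by
          intro z hz φ h
          obtain ⟨h1, -, h2, -⟩ := hbB z hz
          have h3 := h2 φ
          rw [h, zero_pow two_ne_zero] at h3
          exact (map_ne_zero φ).2 h1 h3.symm
        have hq0 : ∀ z ∈ s, ∀ i, q z i ≠ 0 := by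
          intro z hz i h
          obtain ⟨-, -, -, h2⟩ := hbB z hz
          have h3 := h2 i
          rw [h, zero_pow two_ne_zero] at h3
          exact mul_ne_zero (hbig x0 hx0 i) (hbig z hz i) h3.symm
        have hsign : ∀ φ : K →ₐ[ℚ] ℂ, ∀ i, eval₂ (φ : K →+* ℂ) (θ i) (B x * B y) =
            (σ x φ * σ y φ) * (q x i * q y i) := by
          intro φ i
          rw [eval₂_mul]
          have h1 : (φ, i) ∈ F x ↔ (φ, i) ∈ F y := by rw [hFxy]
          rw [hF, hF, Finset.mem_filter, Finset.mem_filter] at h1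
          simp only [Finset.mem_univ, true_and] at h1
          by_cases h2 : eval₂ (φ : K →+* ℂ) (θ i) (B x) = σ x φ * q x i
          · rw [h2, h1.1 h2]
            ring
          · have h3 : ¬ eval₂ (φ : K →+* ℂ) (θ i) (B y) = σ y φ * q y i := fun h => h2 (h1.2 h)
            have h4 : eval₂ (φ : K →+* ℂ) (θ i) (B x) = -(σ x φ * q x i) := by
              have h5 : eval₂ (φ : K →+* ℂ) (θ i) (B x) ^ 2 = (σ x φ * q x i) ^ 2 := by
                rw [hBx, mul_pow, hσx, hqx]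
                ring
              exact (sq_eq_sq_iff_eq_or_eq_neg.1 h5).resolve_left h2
            have h6 : eval₂ (φ : K →+* ℂ) (θ i) (B y) = -(σ y φ * q y i) := by
              have h5 : eval₂ (φ : K →+* ℂ) (θ i) (B y) ^ 2 = (σ y φ * q y i) ^ 2 := by
                rw [hBy, mul_pow, hσy, hqy]
                ring
              exact (sq_eq_sq_iff_eq_or_eq_neg.1 h5).resolve_left h3
            rw [h4, h6]
            ring
        obtain ⟨P0, p, l, hp0, hl, hP0⟩ := descend g e hdeg (by omega) θ hθi hθ0 (B x * B y)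
          (fun φ => σ x φ * σ y φ) (fun i => q x i * q y i)
          (fun φ => mul_ne_zero (hσ0 x hx.1 φ) (hσ0 y hy.1 φ))
          (fun i => mul_ne_zero (hq0 x hx.1 i) (hq0 y hy.1 i)) hsign
        have hl2 : ∀ φ : K →ₐ[ℚ] ℂ, φ (b x * b y / p ^ 2) = l ^ 2 := by
          intro φ
          have h1 := hl φ
          have h2 : φ p ≠ 0 := (map_ne_zero φ).2 hp0
          have h3 : (σ x φ * σ y φ) ^ 2 = (l * φ p) ^ 2 := by rw [h1]
          rw [mul_pow, hσx, hσy, mul_pow] at h3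
          rw [map_div₀, map_mul, map_pow, h3]
          field_simp
        obtain ⟨r, hr⟩ := rat_of_conj (b x * b y / p ^ 2) (fun φ ψ => by rw [hl2, hl2])
        have hr0 : r ≠ 0 := by
          rintro rfl
          rw [Rat.cast_zero] at hr
          exact div_ne_zero (mul_ne_zero hbx hby) (pow_ne_zero _ hp0) hr.symm
        obtain ⟨φ0⟩ : Nonempty (K →ₐ[ℚ] ℂ) := by
          have hpos : 0 < Module.finrank ℚ K := Module.finrank_pos
          exact Fintype.card_pos_iff.1 (by omega)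
        have hrl : (r : ℂ) = l ^ 2 := by
          rw [← hl2 φ0, ← hr, map_ratCast]
        refine ⟨r.num * r.den, mul_ne_zero (Rat.num_ne_zero.2 hr0) (by exact_mod_cast r.den_nz),
          C (r.den : ℚ) * P0 * U, ?_⟩
        intro z hz
        obtain ⟨i, rfl⟩ := hθall z hz
        have h1 := hU (θ i) (hθ0 i)
        have h2 : aeval (θ i) (C (r.den : ℚ)) = (r.den : ℂ) := by simp
        have h3 : (r.num : ℂ) = r * r.den := by
          have h4 : (r.num : ℚ) = r * r.den := (Rat.mul_den_eq_num r).symm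
          exact_mod_cast congrArg (fun t : ℚ => (t : ℂ)) h4
        rw [map_mul, map_mul, h2, hP0]
        push_cast
        have h4 := hqx i
        have h5 := hqy i
        calc ((r.den : ℂ) * (l * (q x i * q y i)) * aeval (θ i) U) ^ 2
            = (r.den : ℂ) ^ 2 * l ^ 2 * (q x i ^ 2 * q y i ^ 2) * aeval (θ i) U ^ 2 := by ring
          _ = (r.den : ℂ) ^ 2 * r * (((x0 - θ i) * (x - θ i)) * ((x0 - θ i) * (y - θ i))) *
              aeval (θ i) U ^ 2 := by rw [h4, h5, hrl]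
          _ = (r.den : ℂ) ^ 2 * r * (x - θ i) * (y - θ i) *
              (aeval (θ i) U * (x0 - θ i)) ^ 2 := by ring
          _ = (r.num : ℂ) * r.den * (x - θ i) * (y - θ i) := by
              rw [h1, h3]
              ring)
  refine hmain.trans ?_
  rw [Finset.card_univ, Fintype.card_finset, Fintype.card_prod, Fintype.card_fin, hcard, mul_comm e]

end Pool.Agent.N394.FPC
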